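import Pool.Agent.Run7.h927.SV.B

set_option autoImplicit false

/-! The sieve classes of walks, nested words and random fields, and smaller classes. -/

namespace Pool.Agent.Run7.h927.SV
open Finset
open Pool.Agent.Run7.h927.CG

theorem w_siev {X : Type} {b : ℕ} {δ : X → ℕ → Option X} (hG : Pool.Agent.N625.GW.Graph b δ) (x : X) (ρ : ℝ) (hρ : 0 < ρ)
    (hR : Pool.Agent.N625.GW.Rho b δ x ρ) (D₀ : ℕ) (C : ℕ → (ℕ → ℝ) → Prop)
    (hC : ∀ k p, C k p → Pool.Agent.N625.GW.WC b δ x ρ D₀ k p) : ∃ L, Siev b L C :=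
  siev_of ((w_exp hG x ρ hρ hR D₀).mono hC) ((w_good hG x ρ hρ hR D₀).mono hC)

theorem br_siev {b : ℕ} {P : Finset (ℕ × ℕ)} {E : Finset ℕ} (hA : Pool.Agent.N625.DY.Alphabet b P E)
    (C : ℕ → (ℕ → ℝ) → Prop) (hC : ∀ k p, C k p → Pool.Agent.N625.DY.BrC b P E k p) : ∃ L, Siev b L C :=
  siev_of ((br_exp hA).mono hC) ((br_good hA).mono hC)

theorem gf_siev (b Δ : ℕ) (η : ℝ) (hb : 2 ≤ b) (hη : 0 < η)
    (C : ℕ → (ℕ → ℝ) → Prop) (hC : ∀ k p, C k p → Pool.Agent.N213.GF.GC b Δ η k p) : ∃ L, Siev b L C :=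
  siev_of ((gf_exp b Δ η hb hη).mono hC) ((gf_good b Δ η hb hη).mono hC)

end Pool.Agent.Run7.h927.SV
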