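import Pool.Agent.Run7.h927.SV.A
import Pool.Agent.N625.PT.X1

set_option autoImplicit false

/-! Classes of random integers to which the sieve can be applied. -/

namespace Pool.Agent.Run7.h927.SV
open Finset
open Pool.Agent.TH872
open Pool.Agent.H807R2.Dav
open Pool.Agent.W93.AU
open Pool.Agent.W93.DG
open Pool.Agent.Run7.h927.CG
open Pool.Agent.N625.PT (TCls far_low nn_rat)
open Pool.Agent.Y958.SP (nn)

/-- the class of distributions is equidistributed in the classes modulo the products of large primes, and all the multiples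
have a thin large spectrum -/
structure Siev (b L : ℕ) (C : ℕ → (ℕ → ℝ) → Prop) : Prop where
  two : 2 ≤ b
  one : 1 ≤ L
  nonneg : ∀ k p, C k p → ∀ v, 0 ≤ p v
  sum : ∀ k p, C k p → ∑ v ∈ range (b ^ k), p v = 1
  char : ∃ (T : ℕ) (μ : ℝ), 0 < μ ∧ μ < 1 ∧ ∀ (k : ℕ) (p : ℕ → ℝ), C k p → ∀ S : Finset ℕ, (∀ q ∈ S, q.Prime ∧ b ^ L < q) →
    ∀ m : ℕ, 1 ≤ m → ∏ q ∈ S, q < 2 ^ m → L ≤ k / m → ∀ a : ℕ, 1 ≤ a → a < ∏ q ∈ S, q →
    ‖∑ v ∈ range (b ^ k), (p v : ℂ) * ee (v * ((a : ℝ) / ((∏ q ∈ S, q : ℕ) : ℝ)))‖ ≤ (k : ℝ) ^ T * μ ^ (k / m - L)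
  tc : ∀ κ : ℤ, κ ≠ 0 → TCls b κ C

open Classical in
/-- the exponential sums at the rational numbers with a denominator prime to the base and to `M` -/
theorem exp_rat {b M : ℕ} {C : ℕ → (ℕ → ℝ) → Prop} (hC : ExpC b M C) : ∃ L : ℕ, 1 ≤ L ∧ ∃ (T : ℕ) (μ : ℝ), 0 < μ ∧ μ < 1 ∧
    ∀ (k : ℕ) (p : ℕ → ℝ), C k p → ∀ S : Finset ℕ, (∀ q ∈ S, q.Prime ∧ b ^ L < q) → ∀ m : ℕ, 1 ≤ m →
    ∏ q ∈ S, q < 2 ^ m → L ≤ k / m → ∀ a : ℕ, 1 ≤ a → a < ∏ q ∈ S, q →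
    ‖∑ v ∈ range (b ^ k), (p v : ℂ) * ee (v * ((a : ℝ) / ((∏ q ∈ S, q : ℕ) : ℝ)))‖ ≤ (k : ℝ) ^ T * μ ^ (k / m - L) := by
  have hb := hC.two
  have hM := hC.pos
  have hB2 : (2 : ℝ) ≤ b := by exact_mod_cast hb
  have hF1 : (1 : ℝ) ≤ (b.factorial : ℝ) := by exact_mod_cast b.factorial_pos
  obtain ⟨c, hc⟩ : ∃ c, c = 4 * (1 / ((b : ℝ) ^ 2 * (b.factorial : ℝ))) ^ 2 := ⟨_, rfl⟩
  have hc0 : 0 < c := by rw [hc]; positivity
  have hc1 : c ≤ 1 / 4 := by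
    rw [hc]
    have e1 : (4 : ℝ) ≤ (b : ℝ) ^ 2 * (b.factorial : ℝ) := by nlinarith
    have e2 : 1 / ((b : ℝ) ^ 2 * (b.factorial : ℝ)) ≤ 1 / 4 := one_div_le_one_div_of_le (by norm_num) e1
    have e3 : 0 ≤ 1 / ((b : ℝ) ^ 2 * (b.factorial : ℝ)) := by positivity
    nlinarith
  obtain ⟨μ, hμ0, hμ1, T, R, hR, hchar⟩ := hC.char c hc0 hc1
  -- a root of `μ`
  obtain ⟨ν, hν⟩ : ∃ ν : ℝ, ν = μ ^ (1 / (R : ℝ)) := ⟨_, rfl⟩
  have hR0 : (0 : ℝ) < R := by exact_mod_cast hR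
  have hν0 : 0 < ν := by rw [hν]; exact Real.rpow_pos_of_pos hμ0 _
  have hν1 : ν < 1 := by
    rw [hν]
    exact Real.rpow_lt_one hμ0.le hμ1 (by positivity)
  have hνR : ν ^ R = μ := by
    rw [hν, ← Real.rpow_natCast, ← Real.rpow_mul hμ0.le, one_div, inv_mul_cancel₀ hR0.ne', Real.rpow_one]
  obtain ⟨L₁, hL₁⟩ : ∃ L₁ : ℕ, L₁ = M + 1 := ⟨_, rfl⟩
  refine ⟨L₁ + 2 * R, by omega, T, ν, hν0, hν1, fun k p hp S hS m hm hd hLk a ha1 ha2 => ?_⟩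
  have hML : M ≤ b ^ (L₁ + 2 * R) := by
    have h1 : M < b ^ M := Nat.lt_pow_self (by omega)
    have h2 : b ^ M ≤ b ^ (L₁ + 2 * R) := Nat.pow_le_pow_right (by omega) (by omega)
    omega
  obtain ⟨d, hdd⟩ : ∃ d, d = ∏ q ∈ S, q := ⟨_, rfl⟩
  rw [← hdd] at hd ha2 ⊢
  have hd1 : 1 ≤ d := by omega
  have hd0 : (0 : ℝ) < d := by exact_mod_cast hd1
  obtain ⟨F, hF⟩ : ∃ F, F = b.factorial * M := ⟨_, rfl⟩
  have hbL : b ≤ b ^ (L₁ + 2 * R) := Nat.le_self_pow (by omega) b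
  have hcop : ∀ j : ℕ, Nat.Coprime d (F * b ^ j) := by
    intro j
    rw [hdd]
    apply Nat.Coprime.prod_left
    intro q hq
    obtain ⟨hqp, hqb⟩ := hS q hq
    rw [Nat.Prime.coprime_iff_not_dvd hqp, hF]
    intro hdv
    rcases (hqp.dvd_mul).1 hdv with h1 | h1
    · rcases (hqp.dvd_mul).1 h1 with h2 | h2
      · rw [hqp.dvd_factorial] at h2
        omega
      · have := Nat.le_of_dvd (by omega) h2
        omega
    · have h2 := Nat.le_of_dvd (by omega) (hqp.dvd_of_dvd_pow h1)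
      omega
  have hfar := far_low b F k m hb ((a : ℝ) / d) (by
    intro j
    have e1 : (F : ℝ) * ((b : ℝ) ^ j * ((a : ℝ) / d)) = (((F * b ^ j * a : ℕ) : ℤ) : ℝ) / d := by
      push_cast
      ring
    rw [e1]
    refine lt_of_lt_of_le ?_ (nn_rat _ d hd1 ?_)
    · apply one_div_lt_one_div_of_lt hd0
      exact_mod_cast hd
    · intro hdv
      have h1 : d ∣ F * b ^ j * a := by exact_mod_cast hdv
      have h2 := (hcop j).dvd_of_dvd_mul_left h1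
      have h3 := Nat.le_of_dvd (by omega) h2
      omega)
  -- the far positions are good
  have hgood : k / m ≤ ((range k).filter (fun j : ℕ => Gd b c ((b : ℝ) ^ j * ((M : ℝ) * ((a : ℝ) / d))))).card := by
    refine hfar.trans ?_
    unfold Mir.farCount
    refine le_trans (le_of_eq (by congr!)) (card_le_card (s := (range k).filter (fun j => Mir.Far (1 / (b : ℝ) ^ 2)
      ((F : ℝ) * ((b : ℝ) ^ j * ((a : ℝ) / d))))) ?_)
    intro j hj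
    rw [mem_filter, mem_range] at hj ⊢
    refine ⟨hj.1, ?_⟩
    rw [hc]
    apply Pool.Agent.R557.AD.gd_of_far b hb
    have e1 : (b.factorial : ℝ) * ((b : ℝ) ^ j * ((M : ℝ) * ((a : ℝ) / d))) = (F : ℝ) * ((b : ℝ) ^ j * ((a : ℝ) / d)) := by
      rw [hF]
      push_cast
      ring
    rw [e1]
    exact hj.2
  obtain ⟨G, hG⟩ : ∃ G, G = k / m := ⟨_, rfl⟩
  rw [← hG] at hgood hLk ⊢
  obtain ⟨n, hn⟩ : ∃ n, n = G / R - 1 := ⟨_, rfl⟩
  have hGR : R * (G / R) ≤ G := Nat.mul_div_le G R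
  have hGR2 : G < R * (G / R) + R := Nat.lt_mul_div_succ G hR
  have hn1 : 1 ≤ G / R := by
    rw [Nat.one_le_div_iff (by omega)]
    omega
  have hn2 : n + 1 = G / R := by omega
  have hn3 : R * n + R ≤ G := by
    have : R * n + R = R * (G / R) := by rw [← hn2]; ring
    omega
  have hn4 : G - (L₁ + 2 * R) ≤ R * n := by
    have : R * n + R = R * (G / R) := by rw [← hn2]; ring
    omega
  refine (hchar k p hp _ n (by omega)).trans ?_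
  apply mul_le_mul_of_nonneg_left _ (by positivity)
  rw [← hνR, ← pow_mul]
  exact pow_le_pow_of_le_one hν0.le hν1.le hn4

theorem siev_of {b M M' : ℕ} {C : ℕ → (ℕ → ℝ) → Prop} (hC : ExpC b M C) (hG : Good b M' C) : ∃ L, Siev b L C := by
  obtain ⟨L, hL, h⟩ := exp_rat hC
  exact ⟨L, hC.two, hL, hC.nonneg, hC.sum, h, fun κ hκ => tcls hG κ hκ⟩

end Pool.Agent.Run7.h927.SV
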