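import Pool.Agent.Run7.h927.CG.Mono
import Pool.Agent.N625.PT.D

set_option autoImplicit false

/-! Walks in graphs, correctly nested words and Markov random fields: exponential decay of the exponential sums in the number
of the good positions. -/

namespace Pool.Agent.Run7.h927.SV
open Finset
open Pool.Agent.H807R2.Dav
open Pool.Agent.W93.AU
open Pool.Agent.W93.DG
open Pool.Agent.Run7.h927.CG

open Classical in
/-- the exponential sums decay exponentially in the number of the good positions of `M θ` -/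
structure ExpC (b M : ℕ) (C : ℕ → (ℕ → ℝ) → Prop) : Prop where
  two : 2 ≤ b
  pos : 1 ≤ M
  nonneg : ∀ k p, C k p → ∀ v, 0 ≤ p v
  sum : ∀ k p, C k p → ∑ v ∈ range (b ^ k), p v = 1
  char : ∀ c : ℝ, 0 < c → c ≤ 1 / 4 → ∃ μ : ℝ, 0 < μ ∧ μ < 1 ∧ ∃ T R : ℕ, 1 ≤ R ∧ ∀ k p, C k p → ∀ (θ : ℝ) (n : ℕ),
    R * n + R ≤ ((range k).filter (fun j : ℕ => Gd b c ((b : ℝ) ^ j * ((M : ℝ) * θ)))).card →
    ‖∑ v ∈ range (b ^ k), (p v : ℂ) * ee (v * θ)‖ ≤ (k : ℝ) ^ T * μ ^ n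

theorem ExpC.mono {b M : ℕ} {C C' : ℕ → (ℕ → ℝ) → Prop} (h : ExpC b M C) (hC : ∀ k p, C' k p → C k p) : ExpC b M C' :=
  ⟨h.two, h.pos, fun k p hp => h.nonneg k p (hC k p hp), fun k p hp => h.sum k p (hC k p hp), fun c hc0 hc1 => by
    obtain ⟨μ, h1, h2, T, R, hR, h3⟩ := h.char c hc0 hc1
    exact ⟨μ, h1, h2, T, R, hR, fun k p hp => h3 k p (hC k p hp)⟩⟩

/-- the trivial bound -/
lemma triv {n : ℕ} {p : ℕ → ℝ} (h0 : ∀ v, 0 ≤ p v) (h1 : ∑ v ∈ range n, p v = 1) (θ : ℝ) :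
    ‖∑ v ∈ range n, (p v : ℂ) * ee (v * θ)‖ ≤ 1 := by
  refine (norm_sum_le _ _).trans (le_of_eq ?_)
  rw [← h1]
  apply sum_congr rfl
  intro v _
  rw [norm_mul, norm_ee, mul_one, Complex.norm_real, Real.norm_of_nonneg (h0 v)]

section walks

open Pool.Agent.N625.GW
open Pool.Agent.N625.DY (act)

variable {X : Type} {b : ℕ} {δ : X → ℕ → Option X}

open Classical in
theorem w_exp (hG : Graph b δ) (x : X) (ρ : ℝ) (hρ : 0 < ρ) (hR : Rho b δ x ρ) (D₀ : ℕ) :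
    ExpC b (b ^ 2).factorial (WC b δ x ρ D₀) := by
  have hcls := w_cls hG x ρ hρ hR D₀ 1 one_ne_zero
  refine ⟨hcls.two, Nat.factorial_pos _, hcls.nonneg, hcls.sum, fun c hc0 hc1 => ?_⟩
  have hb := two_le hG x
  have hB2 : (2 : ℝ) ≤ b := by exact_mod_cast hb
  have hρ2 := rho_two hG hR
  obtain ⟨M, hM⟩ : ∃ M, M = (b ^ 2).factorial := ⟨_, rfl⟩
  have hM1 : (1 : ℝ) ≤ M := by rw [hM]; exact_mod_cast Nat.factorial_pos _
  obtain ⟨c', hc'⟩ : ∃ c', c' = c / (2 * (M : ℝ) ^ 2) := ⟨_, rfl⟩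
  have hc'0 : 0 < c' := by rw [hc']; positivity
  have hc'c : c' ≤ c := by
    rw [hc']
    apply div_le_self hc0.le
    nlinarith
  obtain ⟨μ, hμ⟩ : ∃ μ, μ = Real.sqrt (1 - c' / ρ ^ 2) := ⟨_, rfl⟩
  have hcb : c' / ρ ^ 2 ≤ c' := div_le_self hc'0.le (by linarith)
  have hcb0 : 0 < c' / ρ ^ 2 := by positivity
  have hμ0 : 0 < μ := by
    rw [hμ]
    exact Real.sqrt_pos.2 (by linarith)
  have hμ1 : μ < 1 := by
    rw [hμ, Real.sqrt_lt' one_pos]
    linarith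
  have hμ2 : μ ^ 2 = 1 - c' / ρ ^ 2 := by rw [hμ, Real.sq_sqrt (by linarith)]
  have hμ3 : ρ ^ 2 - c' = ρ ^ 2 * μ ^ 2 := by
    rw [hμ2]
    field_simp
  refine ⟨μ, hμ0, hμ1, D₀, 1, le_rfl, fun m p hp θ n ht => ?_⟩
  obtain ⟨y, hy, rfl⟩ := hp
  obtain ⟨g, hg⟩ : ∃ g : ℕ → Prop, g = fun j => Gq b c' ((b : ℝ) ^ j * θ) := ⟨_, rfl⟩
  have hact : ((range m).filter (fun j : ℕ => Gd b c ((b : ℝ) ^ j * ((((b ^ 2).factorial : ℕ) : ℝ) * θ)))).card ≤ act g m + 1 := by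
    have h1 : (range m).filter (fun j : ℕ => Gd b c ((b : ℝ) ^ j * ((((b ^ 2).factorial : ℕ) : ℝ) * θ))) ⊆
        ((range (m - 1)).filter fun j => g j) ∪ {m - 1} := by
      intro j hj
      rw [mem_filter, mem_range] at hj
      rw [mem_union, mem_filter, mem_range, mem_singleton]
      by_cases hjm : j < m - 1
      · left
        refine ⟨hjm, ?_⟩
        rw [hg]
        simp only
        rw [hc', hM]
        apply gq_of hb c hc0.le (by linarith)
        have e1 : (((b ^ 2).factorial : ℕ) : ℝ) * ((b : ℝ) ^ j * θ) = (b : ℝ) ^ j * ((((b ^ 2).factorial : ℕ) : ℝ) * θ) := by ring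
        rw [e1]
        exact hj.2
      · right
        omega
    refine (card_le_card h1).trans ((card_union_le _ _).trans ?_)
    rw [card_singleton]
    unfold act
    exact le_rfl
  have hact2 : n ≤ act g m := by omega
  have hN0 : 0 < (walks b δ m x y).card := card_pos' hρ hy
  have h1 := Z_final hG θ y ρ c' μ hρ (tame_reach hG hR m hN0) hc'0.le (by linarith) (by linarith) hμ0.le hμ1.le hμ3 g
    (fun j hj => by rw [hg] at hj; exact hj) m x
  have hZ : Z b δ θ y m x = ∑ v ∈ walks b δ m x y, ee (v * θ) := rfl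
  have hsum : ∑ v ∈ range (b ^ m), (((if v ∈ walks b δ m x y then 1 / ((walks b δ m x y).card : ℝ) else 0 : ℝ)) : ℂ) * ee (v * θ) =
      ((1 / ((walks b δ m x y).card : ℝ) : ℝ) : ℂ) * Z b δ θ y m x := by
    rw [hZ, mul_sum, ← w_sum m]
    apply sum_congr rfl
    intro v _
    by_cases hv : v ∈ walks b δ m x y
    · rw [if_pos hv, if_pos hv]
    · rw [if_neg hv, if_neg hv, Complex.ofReal_zero, zero_mul]
  rw [hsum]
  obtain ⟨N, hN⟩ : ∃ N : ℝ, N = ((walks b δ m x y).card : ℝ) := ⟨_, rfl⟩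
  have hNpos : 0 < N := by rw [hN]; exact_mod_cast hN0
  rw [← hN] at hy ⊢
  have h3 : μ ^ act g m ≤ μ ^ n := pow_le_pow_of_le_one hμ0.le hμ1.le hact2
  have h5 : ‖Z b δ θ y m x‖ ≤ (m : ℝ) ^ D₀ * μ ^ n * N := by
    calc ‖Z b δ θ y m x‖ ≤ ρ ^ m * μ ^ act g m := h1
      _ ≤ ((m : ℝ) ^ D₀ * N) * μ ^ n := mul_le_mul hy h3 (by positivity) (by positivity)
      _ = _ := by ring
  rw [norm_mul, Complex.norm_real, Real.norm_eq_abs, abs_of_pos (by positivity)]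
  calc 1 / N * ‖Z b δ θ y m x‖ ≤ 1 / N * ((m : ℝ) ^ D₀ * μ ^ n * N) := mul_le_mul_of_nonneg_left h5 (by positivity)
    _ = (m : ℝ) ^ D₀ * μ ^ n := by field_simp

end walks

section words

open Pool.Agent.N625.DY

variable {b : ℕ} {P : Finset (ℕ × ℕ)} {E : Finset ℕ}

open Classical in
theorem br_exp (hA : Alphabet b P E) : ExpC b (b - 1) (BrC b P E) := by
  have hcls := br_cls hA 1 one_ne_zero
  have hb := two_le hA
  refine ⟨hcls.two, by omega, hcls.nonneg, hcls.sum, fun c hc0 hc1 => ?_⟩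
  have hbe := beta_ge hA
  have hB2 : (2 : ℝ) ≤ b := by exact_mod_cast hb
  obtain ⟨μ, hμ⟩ : ∃ μ, μ = Real.sqrt (1 - c / beta P E ^ 2) := ⟨_, rfl⟩
  have hcb : c / beta P E ^ 2 ≤ c := div_le_self hc0.le (by nlinarith)
  have hcb0 : 0 < c / beta P E ^ 2 := by positivity
  have hμ0 : 0 < μ := by
    rw [hμ]
    exact Real.sqrt_pos.2 (by linarith)
  have hμ1 : μ < 1 := by
    rw [hμ, Real.sqrt_lt' one_pos]
    linarith
  have hμ2 : μ ^ 2 = 1 - c / beta P E ^ 2 := by rw [hμ, Real.sq_sqrt (by linarith)]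
  have hμ3 : beta P E ^ 2 - c = beta P E ^ 2 * μ ^ 2 := by
    rw [hμ2]
    field_simp
  obtain ⟨T₁, hT₁⟩ := pow_unbounded_of_one_lt (8 * beta P E) (one_lt_two (α := ℝ))
  refine ⟨μ, hμ0, hμ1, T₁ + 2, 1, le_rfl, fun m p hp θ n ht => ?_⟩
  obtain ⟨hev, rfl⟩ := hp
  obtain ⟨g, hg⟩ : ∃ g : ℕ → Prop, g = fun j => Gd b c ((b : ℝ) ^ j * (((b : ℝ) - 1) * θ)) := ⟨_, rfl⟩
  have ebr : ((b - 1 : ℕ) : ℝ) = (b : ℝ) - 1 := by
    rw [Nat.cast_sub (by omega)]
    norm_num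
  rw [ebr] at ht
  have hact : ((range m).filter (fun j : ℕ => Gd b c ((b : ℝ) ^ j * (((b : ℝ) - 1) * θ)))).card ≤ act g m + 1 := by
    have h1 : (range m).filter (fun j : ℕ => Gd b c ((b : ℝ) ^ j * (((b : ℝ) - 1) * θ))) ⊆
        ((range (m - 1)).filter fun j => g j) ∪ {m - 1} := by
      intro j hj
      rw [mem_filter, mem_range] at hj
      rw [mem_union, mem_filter, mem_range, mem_singleton]
      by_cases hjm : j < m - 1
      · left
        refine ⟨hjm, ?_⟩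
        rw [hg]
        exact hj.2
      · right
        omega
    refine (card_le_card h1).trans ((card_union_le _ _).trans ?_)
    rw [card_singleton]
    unfold act
    exact le_rfl
  have hact2 : n ≤ act g m := by omega
  have hm1 : 1 ≤ m := by
    by_contra hm
    have : m = 0 := by omega
    rw [this] at ht
    simp at ht
  have hmr : (1 : ℝ) ≤ m := by exact_mod_cast hm1
  rcases Nat.eq_zero_or_pos n with hn0 | hn0
  · rw [hn0, pow_zero, mul_one]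
    refine (triv (hcls.nonneg m _ ⟨hev, rfl⟩) (hcls.sum m _ ⟨hev, rfl⟩) θ).trans (one_le_pow₀ hmr)
  have hm2 : 2 ≤ m := by
    have h1 : ((range m).filter (fun j : ℕ => Gd b c ((b : ℝ) ^ j * (((b : ℝ) - 1) * θ)))).card ≤ m := by
      refine (card_filter_le _ _).trans (le_of_eq (card_range m))
    omega
  have hmr2 : (2 : ℝ) ≤ m := by exact_mod_cast hm2
  have h1 := (Z_bound hA (by omega) θ c μ hc0.le (by linarith) hμ0.le hμ1.le hμ3 g (fun j hj => by rw [hg] at hj; exact hj) m).1 []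
  rw [show hh P [] = 1 from rfl, mul_one] at h1
  have hsum : ∑ v ∈ range (b ^ m), (((if v ∈ brackets b P E m then 1 / ((brackets b P E m).card : ℝ) else 0 : ℝ)) : ℂ) * ee (v * θ) =
      ((1 / ((brackets b P E m).card : ℝ) : ℝ) : ℂ) * Z b P E θ m [] := by
    rw [Z_nil hA, mul_sum, ← br_sum m]
    apply sum_congr rfl
    intro v _
    by_cases hv : v ∈ brackets b P E m
    · rw [if_pos hv, if_pos hv]
    · rw [if_neg hv, if_neg hv, Complex.ofReal_zero, zero_mul]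
  rw [hsum]
  have h2 := Nn_big hA m hev
  rw [← card_brackets hA] at h2
  have hpos : (0 : ℝ) < (brackets b P E m).card := by exact_mod_cast card_pos_of hA m hev
  obtain ⟨N, hN⟩ : ∃ N : ℝ, N = ((brackets b P E m).card : ℝ) := ⟨_, rfl⟩
  rw [← hN] at h2 hpos ⊢
  have h3 : μ ^ act g m ≤ μ ^ n := pow_le_pow_of_le_one hμ0.le hμ1.le hact2
  have h4 : 2 * beta P E * ((m : ℝ) + 1) ^ 2 ≤ (m : ℝ) ^ (T₁ + 2) := by
    have e1 : ((m : ℝ) + 1) ^ 2 ≤ (2 * m) ^ 2 := pow_le_pow_left₀ (by positivity) (by linarith) 2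
    have e2 : (2 : ℝ) ^ T₁ ≤ (m : ℝ) ^ T₁ := pow_le_pow_left₀ (by norm_num) hmr2 T₁
    have hb0 : 0 ≤ beta P E := by linarith
    calc 2 * beta P E * ((m : ℝ) + 1) ^ 2 ≤ 2 * beta P E * (2 * m) ^ 2 := mul_le_mul_of_nonneg_left e1 (by positivity)
      _ = (8 * beta P E) * (m : ℝ) ^ 2 := by ring
      _ ≤ (m : ℝ) ^ T₁ * (m : ℝ) ^ 2 := mul_le_mul_of_nonneg_right (hT₁.le.trans e2) (by positivity)
      _ = (m : ℝ) ^ (T₁ + 2) := by rw [pow_add]
  have h5 : ‖Z b P E θ m []‖ ≤ (m : ℝ) ^ (T₁ + 2) * μ ^ n * N := by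
    have hb0 : 0 ≤ beta P E := by linarith
    calc ‖Z b P E θ m []‖ ≤ beta P E ^ m * μ ^ act g m := h1
      _ ≤ (2 * beta P E * ((m : ℝ) + 1) ^ 2 * N) * μ ^ n := mul_le_mul h2 h3 (by positivity) (by positivity)
      _ ≤ ((m : ℝ) ^ (T₁ + 2) * N) * μ ^ n := by
          apply mul_le_mul_of_nonneg_right _ (by positivity)
          exact mul_le_mul_of_nonneg_right h4 hpos.le
      _ = _ := by ring
  rw [norm_mul, Complex.norm_real, Real.norm_eq_abs, abs_of_pos (by positivity)]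
  calc 1 / N * ‖Z b P E θ m []‖ ≤ 1 / N * ((m : ℝ) ^ (T₁ + 2) * μ ^ n * N) := mul_le_mul_of_nonneg_left h5 (by positivity)
    _ = (m : ℝ) ^ (T₁ + 2) * μ ^ n := by field_simp

end words

section fields

open Pool.Agent.N213.GF

open Classical in
theorem gf_exp (b Δ : ℕ) (η : ℝ) (hb : 2 ≤ b) (hη : 0 < η) : ExpC b 1 (GC b Δ η) := by
  have hcls := gf_cls b Δ η hb hη 1 one_ne_zero
  refine ⟨hb, le_rfl, hcls.nonneg, hcls.sum, fun c hc0 hc1 => ?_⟩
  have hB2 : (2 : ℝ) ≤ b := by exact_mod_cast hb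
  rcases le_or_gt η (1 / 2) with hη2 | hη2
  swap
  · refine ⟨1 / 2, by norm_num, by norm_num, 0, 1, le_rfl, fun m p hp θ n ht => ?_⟩
    obtain ⟨A, hF⟩ := hp
    have hm : 1 ≤ m := by
      by_contra hm
      have : m = 0 := by omega
      rw [this] at ht
      simp at ht
    exact absurd (eta_half hF (by omega)) (by linarith)
  obtain ⟨μ, hμ⟩ : ∃ μ, μ = 1 - η * c := ⟨_, rfl⟩
  have hηc : η * c ≤ 1 / 2 := by nlinarith
  have hηc0 : 0 < η * c := mul_pos hη hc0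
  have hμ0 : 0 < μ := by rw [hμ]; linarith
  have hμ1 : μ < 1 := by rw [hμ]; linarith
  refine ⟨μ, hμ0, hμ1, 0, (Δ + 1) ^ 3, Nat.one_le_pow _ _ (by omega), fun m p hp θ n ht => ?_⟩
  obtain ⟨A, hF⟩ := hp
  simp only [Nat.cast_one, one_mul] at ht
  obtain ⟨G, hG⟩ : ∃ G : Finset ℕ, G = (range m).filter (fun j => Gd b c ((b : ℝ) ^ j * θ)) := ⟨_, rfl⟩
  rw [← hG] at ht
  obtain ⟨S, hSG, hS1, hS2⟩ := greedy hF.symm hF.degree G.card G (fun i hi => by
    rw [hG, mem_filter, mem_range] at hi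
    exact hi.1) le_rfl
  have h1 := char_field hb hF c θ hη.le (by linarith) S (fun i hi => by
    have := hSG hi
    rw [hG, mem_filter, mem_range] at this
    exact this.1) hS1 (fun i hi => by
    have := hSG hi
    rw [hG, mem_filter, mem_range] at this
    exact this.2)
  rw [pow_zero, one_mul]
  refine h1.trans ?_
  rw [← hμ]
  have h2 : n ≤ S.card := by
    have h3 : (Δ + 1) ^ 3 * n ≤ (Δ + 1) ^ 3 * S.card := by omega
    exact Nat.le_of_mul_le_mul_left h3 (by positivity)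
  exact pow_le_pow_of_le_one hμ0.le hμ1.le h2

end fields

end Pool.Agent.Run7.h927.SV
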